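import Mathlib

/-!
# Erdos-Ulam ideals of the form `Z_g(f)` are simple density ideals

If an Erdos-Ulam ideal is of the form `Z_g(f)`, then it contains the ideal of the sets of asymptotic
density zero, because it is invariant under pushing sets to the right.  From this one gets that
`Z_g(f) = Z_g'` for `g' n = max (m ≤ n) ⌈m f(g m) / f m⌉`.
-/

set_option autoImplicit false

namespace Pool.Agent.Results.MP_54d8ad_lc.EUSimple

open Filter Topology Finset NNReal

/-- The number of elements of `A ∩ {0, ..., n - 1}`. -/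
noncomputable def cnt (A : Set ℕ) (n : ℕ) : ℕ := by
  classical exact ((range n).filter (· ∈ A)).card

/-- The sum of `h i` over `i ∈ A ∩ {0, ..., n - 1}`. -/
noncomputable def mass (h : ℕ → ℝ) (A : Set ℕ) (n : ℕ) : ℝ := by
  classical exact ∑ i ∈ (range n).filter (· ∈ A), h i

/-- `h` defines an Erdos-Ulam ideal. -/
structure IsEUWeight (h : ℕ → ℝ) : Prop where
  nonneg : ∀ i, 0 ≤ h i
  sum : Tendsto (fun n => ∑ i ∈ range n, h i) atTop atTop
  small : Tendsto (fun n => h n / ∑ i ∈ range (n + 1), h i) atTop (𝓝 0)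

/-- The Erdos-Ulam ideal of `h`. -/
def EU (h : ℕ → ℝ) : Set (Set ℕ) :=
  {A | Tendsto (fun n => mass h A n / ∑ i ∈ range n, h i) atTop (𝓝 0)}

/-- The class `H` of the functions that define simple density ideals. -/
structure InH (g : ℕ → ℕ) : Prop where
  mono : Monotone g
  top : Tendsto g atTop atTop
  not_small : ¬ Tendsto (fun n : ℕ => (n : ℝ) / g n) atTop (𝓝 0)

/-- The simple density ideal of `g`. -/
def Z (g : ℕ → ℕ) : Set (Set ℕ) := {A | Tendsto (fun n => (cnt A n : ℝ) / g n) atTop (𝓝 0)}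

/-- Modulus functions. -/
structure IsModulus (f : ℝ≥0 → ℝ≥0) : Prop where
  zero_iff : ∀ x, f x = 0 ↔ x = 0
  add_le : ∀ x y, f (x + y) ≤ f x + f y
  mono : Monotone f
  cont : ContinuousAt f 0

/-- The ideal `Z_g(f)`. -/
def ZF (g : ℕ → ℕ) (f : ℝ≥0 → ℝ≥0) : Set (Set ℕ) :=
  {A | Tendsto (fun n => (f (cnt A n) : ℝ) / (f (g n) : ℝ)) atTop (𝓝 0)}

/-! ## Counting -/

theorem cnt_le (A : Set ℕ) (n : ℕ) : cnt A n ≤ n := by
  classical
  unfold cnt
  calc _ ≤ (range n).card := by convert card_filter_le (range n) (· ∈ A)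
    _ = n := card_range n

theorem cnt_mono (A : Set ℕ) : Monotone (cnt A) := by
  classical
  intro m n hmn
  unfold cnt
  exact card_le_card (filter_subset_filter _ (range_mono hmn))

theorem cnt_univ (n : ℕ) : cnt Set.univ n = n := by
  classical
  unfold cnt
  simp

theorem mass_univ (h : ℕ → ℝ) (n : ℕ) : mass h Set.univ n = ∑ i ∈ range n, h i := by
  classical
  unfold mass
  simp

theorem mass_one (A : Set ℕ) (n : ℕ) : mass (fun _ => 1) A n = cnt A n := by
  classical
  unfold mass cnt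
  simp

/-! ## Sparse sets with one element in each dyadic block -/

section Blocks
variable (h : ℕ → ℝ)

/-- The set of the numbers where `h` is (lexicographically) minimal on their block of length
`2 ^ M`. -/
def CM (M : ℕ) : Set ℕ := {x | ∀ y, y / 2 ^ M = x / 2 ^ M → toLex (h x, x) ≤ toLex (h y, y)}

theorem CM_anti {M N : ℕ} (hMN : M ≤ N) : CM h N ⊆ CM h M := by
  intro x hx y hy
  apply hx y
  obtain ⟨k, rfl⟩ := Nat.exists_eq_add_of_le hMN
  rw [pow_add, ← Nat.div_div_eq_div_mul, ← Nat.div_div_eq_div_mul, hy]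

theorem CM_unique {M x y : ℕ} (hx : x ∈ CM h M) (hy : y ∈ CM h M) (hxy : x / 2 ^ M = y / 2 ^ M) :
    x = y := by
  have h1 := hx y hxy.symm
  have h2 := hy x hxy
  have h3 := le_antisymm h1 h2
  have h4 : (h x, x) = (h y, y) := by simpa using h3
  exact congrArg Prod.snd h4

theorem CM_exists (M q : ℕ) : ∃ x ∈ CM h M, x / 2 ^ M = q := by
  have hpos : 0 < 2 ^ M := by positivity
  obtain ⟨x, hx, hmin⟩ := (Ico (q * 2 ^ M) ((q + 1) * 2 ^ M)).exists_min_image
    (fun x => toLex (h x, x)) ⟨q * 2 ^ M, by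
      rw [mem_Ico]; exact ⟨le_refl _, by nlinarith⟩⟩
  have hmem : ∀ y, y ∈ Ico (q * 2 ^ M) ((q + 1) * 2 ^ M) ↔ y / 2 ^ M = q := by
    intro y
    rw [mem_Ico, Nat.div_eq_iff hpos]
    constructor
    · rintro ⟨h1, h2⟩
      exact ⟨h1, by rw [add_mul, one_mul] at h2; omega⟩
    · rintro ⟨h1, h2⟩
      exact ⟨h1, by rw [add_mul, one_mul]; omega⟩
  refine ⟨x, ?_, (hmem x).1 hx⟩
  intro y hy
  exact hmin y ((hmem y).2 (hy.trans ((hmem x).1 hx)))

theorem le_cnt_CM (M n : ℕ) : n / 2 ^ M ≤ cnt (CM h M) n := by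
  classical
  have hpos : 0 < 2 ^ M := by positivity
  unfold cnt
  calc n / 2 ^ M = (range (n / 2 ^ M)).card := (card_range _).symm
    _ ≤ _ := by
      apply card_le_card_of_surjOn (fun x => x / 2 ^ M)
      intro q hq
      have hq' : q < n / 2 ^ M := by simpa using hq
      obtain ⟨x, hx, hxq⟩ := CM_exists h M q
      refine ⟨x, ?_, hxq⟩
      rw [Finset.mem_coe, Finset.mem_filter, Finset.mem_range]
      refine ⟨?_, hx⟩
      by_contra hcon
      push Not at hcon
      have := Nat.div_le_div_right (c := 2 ^ M) hcon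
      omega

variable {h}

theorem block_le (M a b : ℕ) (hab : ∀ x ∈ Ico a b, ∀ y ∈ Ico a b,
    x / 2 ^ M = y / 2 ^ M) [DecidablePred (· ∈ CM h M)] :
    (∑ i ∈ (Ico a b).filter (· ∈ CM h M), h i = 0) ∨
    ∃ x ∈ Ico a b, ∑ i ∈ (Ico a b).filter (· ∈ CM h M), h i = h x ∧ ∀ y ∈ Ico a b, h x ≤ h y := by
  by_cases hex : ∃ x ∈ Ico a b, x ∈ CM h M
  · right
    obtain ⟨x, hx, hxC⟩ := hex
    refine ⟨x, hx, ?_, ?_⟩
    · have : (Ico a b).filter (· ∈ CM h M) = {x} := by
        ext y
        rw [Finset.mem_filter, Finset.mem_singleton]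
        constructor
        · rintro ⟨hy, hyC⟩
          exact CM_unique h hyC hxC (hab y hy x hx)
        · rintro rfl
          exact ⟨hx, hxC⟩
      rw [this, sum_singleton]
    · intro y hy
      have h1 := hxC y (hab y hy x hx)
      rw [Prod.Lex.le_iff] at h1
      rcases h1 with h1 | ⟨h1, -⟩
      · exact le_of_lt h1
      · exact le_of_eq h1
  · left
    push Not at hex
    rw [Finset.filter_false_of_mem hex, sum_empty]

theorem mass_CM_full (h0 : ∀ i, 0 ≤ h i) (M q : ℕ) :
    2 ^ M * mass h (CM h M) (q * 2 ^ M) ≤ ∑ i ∈ range (q * 2 ^ M), h i := by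
  classical
  have hpos : 0 < 2 ^ M := by positivity
  unfold mass
  induction q with
  | zero => simp
  | succ q ih =>
    have hle : q * 2 ^ M ≤ (q + 1) * 2 ^ M := Nat.mul_le_mul_right _ (Nat.le_succ q)
    have hsplit : range ((q + 1) * 2 ^ M) = range (q * 2 ^ M) ∪ Ico (q * 2 ^ M) ((q + 1) * 2 ^ M) := by
      ext x
      simp only [mem_union, mem_range, mem_Ico]
      omega
    have hdisj : Disjoint (range (q * 2 ^ M)) (Ico (q * 2 ^ M) ((q + 1) * 2 ^ M)) := by
      rw [Finset.disjoint_left]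
      intro x h1 h2
      rw [mem_range] at h1
      rw [mem_Ico] at h2
      omega
    rw [hsplit, filter_union, sum_union (disjoint_filter_filter hdisj), sum_union hdisj, mul_add]
    refine add_le_add ih ?_
    have hmem : ∀ y ∈ Ico (q * 2 ^ M) ((q + 1) * 2 ^ M), y / 2 ^ M = q := by
      intro y hy
      rw [mem_Ico, add_mul, one_mul] at hy
      rw [Nat.div_eq_iff hpos]
      omega
    rcases block_le M (q * 2 ^ M) ((q + 1) * 2 ^ M)
      (fun x hx y hy => (hmem x hx).trans (hmem y hy).symm) with h1 | ⟨x, hx, h1, h2⟩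
    · rw [h1, mul_zero]
      exact sum_nonneg fun i _ => h0 i
    · rw [h1]
      have := card_nsmul_le_sum (Ico (q * 2 ^ M) ((q + 1) * 2 ^ M)) h (h x) h2
      rw [Nat.card_Ico, nsmul_eq_mul] at this
      have h3 : (q + 1) * 2 ^ M - q * 2 ^ M = 2 ^ M := by
        rw [add_mul, one_mul]; omega
      rw [h3] at this
      push_cast at this
      exact this

theorem mass_CM (hh : IsEUWeight h) (M : ℕ) {ε : ℝ} (hε : 0 < ε) :
    ∀ᶠ n in atTop, mass h (CM h M) n ≤ (1 / 2 ^ M + ε) * ∑ i ∈ range n, h i := by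
  classical
  have hpos : 0 < 2 ^ M := by positivity
  have h0 := hh.nonneg
  have hS0 : ∀ n, 0 ≤ ∑ i ∈ range n, h i := fun n => sum_nonneg fun i _ => h0 i
  have hSmono : Monotone fun n => ∑ i ∈ range n, h i := fun m n hmn =>
    sum_le_sum_of_subset_of_nonneg (range_mono hmn) fun i _ _ => h0 i
  have hev : ∀ᶠ n in atTop, h n ≤ ε * ∑ i ∈ range (n + 1), h i := by
    have h1 := hh.small.eventually (gt_mem_nhds hε)
    have h2 := ((tendsto_add_atTop_iff_nat 1).2 hh.sum).eventually (eventually_gt_atTop 0)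
    filter_upwards [h1, h2] with n hn1 hn2
    exact ((div_lt_iff₀ hn2).1 hn1).le
  obtain ⟨N, hN⟩ := eventually_atTop.1 hev
  filter_upwards [eventually_ge_atTop ((N + 1) * 2 ^ M)] with n hn
  set q := n / 2 ^ M with hq
  have hqn : q * 2 ^ M ≤ n := Nat.div_mul_le_self n _
  have hNq : N ≤ q * 2 ^ M := by
    have h1 : N + 1 ≤ q := by
      rw [hq, Nat.le_div_iff_mul_le hpos]; exact hn
    nlinarith
  have hfull := mass_CM_full h0 M q
  have hsplit : range n = range (q * 2 ^ M) ∪ Ico (q * 2 ^ M) n := by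
    ext x
    simp only [mem_union, mem_range, mem_Ico]
    omega
  have hdisj : Disjoint (range (q * 2 ^ M)) (Ico (q * 2 ^ M) n) := by
    rw [Finset.disjoint_left]
    intro x h1 h2
    rw [mem_range] at h1
    rw [mem_Ico] at h2
    omega
  have hmem : ∀ y ∈ Ico (q * 2 ^ M) n, y / 2 ^ M = q := by
    intro y hy
    rw [mem_Ico] at hy
    rw [Nat.div_eq_iff hpos]
    have := Nat.lt_div_mul_add (a := n) hpos
    rw [← hq] at this
    omega
  have htail : ∑ i ∈ (Ico (q * 2 ^ M) n).filter (· ∈ CM h M), h i ≤ ε * ∑ i ∈ range n, h i := by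
    rcases block_le M (q * 2 ^ M) n
      (fun x hx y hy => (hmem x hx).trans (hmem y hy).symm) with h1 | ⟨x, hx, h1, -⟩
    · rw [h1]
      exact mul_nonneg hε.le (hS0 n)
    · rw [h1]
      rw [mem_Ico] at hx
      refine (hN x (hNq.trans hx.1)).trans ?_
      exact mul_le_mul_of_nonneg_left (hSmono hx.2) hε.le
  have hm : mass h (CM h M) n = mass h (CM h M) (q * 2 ^ M) +
      ∑ i ∈ (Ico (q * 2 ^ M) n).filter (· ∈ CM h M), h i := by
    unfold mass
    rw [hsplit, filter_union, sum_union (disjoint_filter_filter hdisj)]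
  rw [hm, add_mul]
  refine add_le_add ?_ htail
  have h2 : mass h (CM h M) (q * 2 ^ M) ≤ 1 / 2 ^ M * ∑ i ∈ range (q * 2 ^ M), h i := by
    rw [one_div, ← div_eq_inv_mul, le_div_iff₀ (by positivity), mul_comm]
    exact hfull
  exact h2.trans (mul_le_mul_of_nonneg_left (hSmono hqn) (by positivity))

/-- The diagonal set. -/
theorem exists_diag (hh : IsEUWeight h) (s : ℕ → ℕ) (hs : StrictMono s) :
    ∃ C ∈ EU h, ∀ j, ∀ m ≤ s j, m / 2 ^ j ≤ cnt C m := by
  classical
  have h0 := hh.nonneg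
  have hS0 : ∀ n, 0 ≤ ∑ i ∈ range n, h i := fun n => sum_nonneg fun i _ => h0 i
  let C : Set ℕ := {x | ∀ j, s j ≤ x → x ∈ CM h (j + 1)}
  refine ⟨C, ?_, ?_⟩
  · rw [EU, Set.mem_setOf_eq, Metric.tendsto_atTop]
    intro ε hε
    obtain ⟨M, hM⟩ := exists_pow_lt_of_lt_one (show (0 : ℝ) < ε / 4 by positivity)
      (show (1 / 2 : ℝ) < 1 by norm_num)
    have h1 := mass_CM hh (M + 1) (show (0 : ℝ) < ε / 4 by positivity)
    have h2 := hh.sum.eventually (eventually_gt_atTop ((∑ i ∈ range (s M), h i) / (ε / 4)))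
    have h3 := hh.sum.eventually (eventually_gt_atTop 0)
    obtain ⟨N, hN⟩ := eventually_atTop.1 (h1.and (h2.and h3))
    refine ⟨N, fun n hn => ?_⟩
    obtain ⟨h1, h2, h3⟩ := hN n hn
    rw [div_lt_iff₀ (by positivity)] at h2
    have hle : mass h C n ≤ ∑ i ∈ range (s M), h i + mass h (CM h (M + 1)) n := by
      unfold mass
      calc ∑ i ∈ (range n).filter (· ∈ C), h i
          ≤ ∑ i ∈ range (s M) ∪ (range n).filter (· ∈ CM h (M + 1)), h i := by
            refine sum_le_sum_of_subset_of_nonneg ?_ fun i _ _ => h0 i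
            intro x hx
            rw [Finset.mem_filter] at hx
            rw [mem_union, mem_range, Finset.mem_filter]
            by_cases hxs : x < s M
            · exact Or.inl hxs
            · exact Or.inr ⟨hx.1, hx.2 M (not_lt.1 hxs)⟩
        _ ≤ _ := by
            rw [← sum_union_inter (s₁ := range (s M))]
            exact le_add_of_nonneg_right (sum_nonneg fun i _ => h0 i)
    have hm0 : 0 ≤ mass h C n := by
      unfold mass
      exact sum_nonneg fun i _ => h0 i
    rw [Real.dist_eq, sub_zero, abs_of_nonneg (div_nonneg hm0 (hS0 n)), div_lt_iff₀ h3]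
    have h5 : (1 / 2 ^ (M + 1) : ℝ) ≤ ε / 4 := by
      have : (1 / 2 ^ (M + 1) : ℝ) ≤ (1 / 2) ^ M := by
        rw [one_div, ← inv_pow, pow_succ, one_div]
        have : (0 : ℝ) < (2⁻¹) ^ M := by positivity
        nlinarith
      linarith
    nlinarith
  · intro j m hm
    refine (le_cnt_CM h j m).trans ?_
    unfold cnt
    apply card_le_card
    intro x hx
    rw [Finset.mem_filter, mem_range] at hx ⊢
    refine ⟨hx.1, fun i hi => ?_⟩
    have hij : i < j := hs.lt_iff_lt.1 (lt_of_le_of_lt hi (lt_of_lt_of_le hx.1 hm))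
    exact CM_anti h hij hx.2

end Blocks

theorem isEUWeight_one : IsEUWeight fun _ => 1 where
  nonneg _ := zero_le_one
  sum := by simpa using tendsto_natCast_atTop_atTop (R := ℝ)
  small := by
    simp only [sum_const, card_range, nsmul_eq_mul, mul_one]
    have := tendsto_one_div_add_atTop_nhds_zero_nat (𝕜 := ℝ)
    simpa using this

/-! ## The main argument -/

section Main
variable {φ : ℕ → ℝ}

/-- The properties of the restriction to `ℕ` of an unbounded modulus function. -/
structure IsMod (φ : ℕ → ℝ) : Prop where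
  zero : φ 0 = 0
  pos : ∀ k, 0 < k → 0 < φ k
  mono : Monotone φ
  add_le : ∀ k l, φ (k + l) ≤ φ k + φ l
  top : Tendsto φ atTop atTop

theorem IsMod.nonneg (hφ : IsMod φ) (k : ℕ) : 0 ≤ φ k := by
  rw [← hφ.zero]; exact hφ.mono (Nat.zero_le k)

theorem IsMod.mul_le (hφ : IsMod φ) (k l : ℕ) : φ (k * l) ≤ k * φ l := by
  induction k with
  | zero => simp [hφ.zero]
  | succ k ih =>
    rw [add_mul, one_mul]
    refine (hφ.add_le _ _).trans ?_
    push_cast
    linarith

/-- `m φ(n) ≤ (n + m) φ(m)`. -/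
theorem IsMod.ratio (hφ : IsMod φ) (n m : ℕ) : m * φ n ≤ (n + m) * φ m := by
  rcases Nat.eq_zero_or_pos m with rfl | hm
  · simp [hφ.zero]
  · have h1 : n ≤ (n / m + 1) * m := by
      have := Nat.lt_div_mul_add (a := n) hm
      rw [add_mul, one_mul]
      omega
    have h2 := (hφ.mono h1).trans (hφ.mul_le (n / m + 1) m)
    have h3 : ((n / m : ℕ) : ℝ) * m ≤ n := by exact_mod_cast Nat.div_mul_le_self n m
    have h4 := hφ.nonneg m
    calc (m : ℝ) * φ n ≤ m * (((n / m + 1 : ℕ) : ℝ) * φ m) :=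
          mul_le_mul_of_nonneg_left h2 (Nat.cast_nonneg m)
      _ = (((n / m : ℕ) : ℝ) * m + m) * φ m := by push_cast; ring
      _ ≤ _ := mul_le_mul_of_nonneg_right (by linarith) h4

/-- The ideal `Z_g(f)` in terms of `φ`. -/
def ZP (g : ℕ → ℕ) (φ : ℕ → ℝ) : Set (Set ℕ) :=
  {A | Tendsto (fun n => φ (cnt A n) / φ (g n)) atTop (𝓝 0)}

theorem ZP_closed (hφ : IsMod φ) {g : ℕ → ℕ} (hg : Tendsto g atTop atTop) {A B : Set ℕ}
    (hA : A ∈ ZP g φ) (K : ℕ) (hAB : ∀ n, cnt B n ≤ cnt A n + K) : B ∈ ZP g φ := by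
  have h1 : Tendsto (fun n => φ (cnt A n) / φ (g n) + φ K / φ (g n)) atTop (𝓝 (0 + 0)) :=
    hA.add ((hφ.top.comp hg).const_div_atTop (φ K))
  rw [add_zero] at h1
  refine squeeze_zero (fun n => div_nonneg (hφ.nonneg _) (hφ.nonneg _)) (fun n => ?_) h1
  rw [← add_div]
  exact div_le_div_of_nonneg_right ((hφ.mono (hAB n)).trans (hφ.add_le _ _)) (hφ.nonneg _)

/-- An Erdos-Ulam ideal of the form `Z_g(f)` contains the ideal of the sets of density zero. -/
theorem density_zero_mem (hφ : IsMod φ) {g : ℕ → ℕ} (hg : Tendsto g atTop atTop) {h : ℕ → ℝ}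
    (hh : IsEUWeight h) (heq : EU h ⊆ ZP g φ) {A : Set ℕ}
    (hA : Tendsto (fun n => (cnt A n : ℝ) / n) atTop (𝓝 0)) : A ∈ ZP g φ := by
  have hev : ∀ j : ℕ, ∀ᶠ N in atTop, ∀ n ≥ N, cnt A n ≤ n / 2 ^ (j + 1) := by
    intro j
    have h1 := hA.eventually (gt_mem_nhds (show (0 : ℝ) < 1 / 2 ^ (j + 1) by positivity))
    obtain ⟨N, hN⟩ := eventually_atTop.1 (h1.and (eventually_gt_atTop 0))
    filter_upwards [eventually_ge_atTop N] with N' hN' n hn
    obtain ⟨h2, h3⟩ := hN n (le_trans hN' hn)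
    rw [Nat.le_div_iff_mul_le (by positivity)]
    have h3' : (0 : ℝ) < n := by exact_mod_cast h3
    rw [div_lt_div_iff₀ h3' (by positivity), one_mul] at h2
    exact_mod_cast h2.le
  obtain ⟨s, hs, hsP⟩ := extraction_forall_of_eventually hev
  obtain ⟨C, hC, hCs⟩ := exists_diag hh s hs
  refine ZP_closed hφ hg (heq hC) (s 0) fun n => ?_
  by_cases hn : n < s 0
  · have := cnt_le A n
    omega
  · push Not at hn
    -- find `j` with `s j ≤ n < s (j + 1)`
    have hex : ∃ j, n < s (j + 1) := ⟨n, lt_of_lt_of_le (Nat.lt_succ_self n) (hs.id_le (n + 1))⟩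
    classical
    have hj := Nat.find_spec hex
    set j := Nat.find hex with hjdef
    have hj2 : s j ≤ n := by
      rcases Nat.eq_zero_or_pos j with h0 | h0
      · rw [h0]; exact hn
      · have := Nat.find_min hex (m := j - 1) (by omega)
        rw [Nat.sub_add_cancel h0] at this
        exact not_lt.1 this
    have h1 := hsP j n hj2
    have h2 := hCs (j + 1) n hj.le
    omega

/-- The uniform version. -/
theorem uniform (hφ : IsMod φ) {g : ℕ → ℕ}
    (hZ : ∀ A : Set ℕ, Tendsto (fun n => (cnt A n : ℝ) / n) atTop (𝓝 0) → A ∈ ZP g φ)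
    (hg : Tendsto g atTop atTop) {ε : ℝ} (hε : 0 < ε) :
    ∃ d : ℕ, 0 < d ∧ ∀ᶠ n in atTop, ∀ k : ℕ, k * d ≤ n → φ k ≤ ε * φ (g n) := by
  by_contra hcon
  push Not at hcon
  have h1 : ∀ j : ℕ, ∃ᶠ n in atTop, ∃ k : ℕ, k * 2 ^ j ≤ n ∧ ε * φ (g n) < φ k := by
    intro j
    have := hcon (2 ^ j) (by positivity)
    exact this
  obtain ⟨s, hs, hsP⟩ := extraction_forall_of_frequently h1
  choose k hk1 hk2 using hsP
  obtain ⟨C, hC, hCs⟩ := exists_diag isEUWeight_one s hs
  have hC' : Tendsto (fun n => (cnt C n : ℝ) / n) atTop (𝓝 0) := by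
    have : C ∈ EU fun _ => 1 := hC
    rw [EU, Set.mem_setOf_eq] at this
    simpa [mass_one] using this
  have hmem := hZ C hC'
  rw [ZP, Set.mem_setOf_eq] at hmem
  have h2 := (hmem.comp hs.tendsto_atTop).eventually (gt_mem_nhds hε)
  have h3 := ((hφ.top.comp hg).comp hs.tendsto_atTop).eventually (eventually_gt_atTop 0)
  obtain ⟨j, h4, h5⟩ := (h2.and h3).exists
  have h6 : φ (cnt C (s j)) / φ (g (s j)) < ε := h4
  have h7 : 0 < φ (g (s j)) := h5
  rw [div_lt_iff₀ h7] at h6
  have h8 : k j ≤ cnt C (s j) :=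
    ((Nat.le_div_iff_mul_le (by positivity)).2 (hk1 j)).trans (hCs j (s j) le_rfl)
  have h9 := hφ.mono h8
  have h10 := hk2 j
  linarith

/-- The function `m ↦ m φ(g m) / φ m`. -/
noncomputable def Fg (g : ℕ → ℕ) (φ : ℕ → ℝ) (m : ℕ) : ℝ := m * φ (g m) / φ m

/-- The function `g'`. -/
noncomputable def g' (g : ℕ → ℕ) (φ : ℕ → ℝ) (n : ℕ) : ℕ :=
  (range (n + 1)).sup fun m => ⌈Fg g φ m⌉₊

theorem g'_mono (g : ℕ → ℕ) (φ : ℕ → ℝ) : Monotone (g' g φ) := fun m n hmn =>
  Finset.sup_mono (range_mono (by omega))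

theorem Fg_le (g : ℕ → ℕ) (φ : ℕ → ℝ) (n : ℕ) : Fg g φ n ≤ g' g φ n := by
  refine (Nat.le_ceil _).trans ?_
  have : ⌈Fg g φ n⌉₊ ≤ g' g φ n :=
    Finset.le_sup (f := fun m => ⌈Fg g φ m⌉₊) (mem_range.2 (Nat.lt_succ_self n))
  exact_mod_cast this

theorem main (hφ : IsMod φ) {g : ℕ → ℕ} (hg : Tendsto g atTop atTop) (hgm : Monotone g)
    (hZ : ∀ A : Set ℕ, Tendsto (fun n => (cnt A n : ℝ) / n) atTop (𝓝 0) → A ∈ ZP g φ) :
    Tendsto (g' g φ) atTop atTop ∧ ZP g φ = Z (g' g φ) := by
  -- the function tends to infinity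
  have htop : Tendsto (g' g φ) atTop atTop := by
    obtain ⟨d, hd, hev⟩ := uniform hφ hZ hg (zero_lt_one)
    have hlow : ∀ᶠ n : ℕ in atTop, (n : ℝ) / (2 * d + 1) ≤ g' g φ n := by
      filter_upwards [hev, eventually_ge_atTop (d + 1)] with n hn hnd
      refine le_trans ?_ (Fg_le g φ n)
      have hn0 : 0 < n := by omega
      set k := n / d with hk
      have hk1 : k * d ≤ n := Nat.div_mul_le_self n d
      have hk0 : 1 ≤ k := by rw [hk, Nat.le_div_iff_mul_le hd]; omega
      have h1 := hn k hk1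
      rw [one_mul] at h1
      have h2 := hφ.ratio n k
      have h3 : n < k * d + d := Nat.lt_div_mul_add hd
      have h4 : (n : ℝ) ≤ 2 * d * k := by
        have : n ≤ 2 * d * k := by nlinarith
        exact_mod_cast this
      have hk0' : (0 : ℝ) < k := by exact_mod_cast hk0
      have h5 : φ n ≤ (2 * d + 1) * φ k := by
        have h6 := hφ.nonneg k
        have : (k : ℝ) * φ n ≤ k * ((2 * d + 1) * φ k) := by nlinarith
        exact le_of_mul_le_mul_left this hk0'
      have h6 : 0 < φ n := hφ.pos n hn0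
      unfold Fg
      rw [div_le_div_iff₀ (by positivity) h6]
      have hd' : (0 : ℝ) < 2 * d + 1 := by positivity
      have hn' : (0 : ℝ) < n := by exact_mod_cast hn0
      have h7 : φ n ≤ (2 * d + 1) * φ (g n) := h5.trans (mul_le_mul_of_nonneg_left h1 hd'.le)
      nlinarith
    have h2 : Tendsto (fun n : ℕ => ((n : ℕ) : ℝ) / (2 * d + 1)) atTop atTop :=
      tendsto_natCast_atTop_atTop.atTop_div_const (by positivity)
    exact tendsto_natCast_atTop_iff.1 (tendsto_atTop_mono' atTop hlow h2)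
  refine ⟨htop, ?_⟩
  ext A
  constructor
  · -- the easy inclusion
    intro hA
    have h1 : Tendsto (fun n => 2 * (φ (cnt A n) / φ (g n))) atTop (𝓝 (2 * 0)) := hA.const_mul 2
    rw [mul_zero] at h1
    have hev : ∀ᶠ n in atTop, (cnt A n : ℝ) / g' g φ n ≤ 2 * (φ (cnt A n) / φ (g n)) := by
      filter_upwards [eventually_gt_atTop 0, hg.eventually (eventually_gt_atTop 0),
        htop.eventually (eventually_gt_atTop 0)] with n hn hgn hg'n
      have h2 := hφ.ratio n (cnt A n)
      have h3 : (cnt A n : ℝ) ≤ n := by exact_mod_cast cnt_le A n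
      have h4 := hφ.pos n hn
      have h5 := hφ.pos (g n) hgn
      have h6 := Fg_le g φ n
      have h7 := hφ.nonneg (cnt A n)
      have h8 : (0 : ℝ) < g' g φ n := by exact_mod_cast hg'n
      unfold Fg at h6
      rw [div_le_iff₀ h4] at h6
      rw [← mul_div_assoc, div_le_div_iff₀ h8 h5]
      have h9 : (cnt A n : ℝ) * φ n ≤ 2 * n * φ (cnt A n) := by nlinarith
      -- `cnt * φ(g n) * φ n ≤ 2 n φ(cnt) φ(g n) ≤ 2 φ(cnt) g' φ n`
      have h10 : (cnt A n : ℝ) * φ (g n) * φ n ≤ 2 * φ (cnt A n) * g' g φ n * φ n := by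
        calc (cnt A n : ℝ) * φ (g n) * φ n = (cnt A n * φ n) * φ (g n) := by ring
          _ ≤ (2 * n * φ (cnt A n)) * φ (g n) := mul_le_mul_of_nonneg_right h9 h5.le
          _ = 2 * φ (cnt A n) * (n * φ (g n)) := by ring
          _ ≤ 2 * φ (cnt A n) * (g' g φ n * φ n) := mul_le_mul_of_nonneg_left h6 (by positivity)
          _ = _ := by ring
      exact le_of_mul_le_mul_right h10 h4
    exact squeeze_zero' (Eventually.of_forall fun n => by positivity) hev h1
  · intro hA
    rw [Z, Set.mem_setOf_eq] at hA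
    rw [ZP, Set.mem_setOf_eq]
    rw [Metric.tendsto_atTop]
    intro ε' hε'
    set ε := ε' / 2 with hε_def
    have hε : 0 < ε := by positivity
    obtain ⟨d, hd, hev⟩ := uniform hφ hZ hg hε
    obtain ⟨N, hN⟩ := eventually_atTop.1 hev
    have hd' : (0 : ℝ) < d := by exact_mod_cast hd
    set η : ℝ := ε / (2 * (1 + d)) with hη
    have hη0 : 0 < η := by positivity
    -- a bound on the values of `Fg` on `m < N`
    have hbd : ∃ B : ℝ, ∀ m < N, Fg g φ m ≤ B := by
      refine ⟨g' g φ N, fun m hm => (Fg_le g φ m).trans ?_⟩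
      exact_mod_cast g'_mono g φ hm.le
    obtain ⟨B, hB⟩ := hbd
    have hev2 : ∀ᶠ n in atTop, φ (cnt A n) ≤ ε * φ (g n) ∧ 0 < φ (g n) := by
      filter_upwards [hA.eventually (gt_mem_nhds hη0), htop.eventually (eventually_ge_atTop 2),
        (tendsto_natCast_atTop_iff (R := ℝ).2 htop).eventually (eventually_gt_atTop (B + 1)),
        hg.eventually (eventually_gt_atTop 0)] with n h1 h2 h3 h4
      refine ⟨?_, hφ.pos _ h4⟩
      set k := cnt A n with hk
      have h2' : (2 : ℝ) ≤ g' g φ n := by exact_mod_cast h2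
      rw [div_lt_iff₀ (by linarith)] at h1
      -- the maximizer
      obtain ⟨m, hm, hmax⟩ := (range (n + 1)).exists_mem_eq_sup ⟨0, by simp⟩
        (fun m => ⌈Fg g φ m⌉₊)
      have hmax' : g' g φ n = ⌈Fg g φ m⌉₊ := hmax
      have hmn : m ≤ n := by rw [mem_range] at hm; omega
      have hFm : (g' g φ n : ℝ) < Fg g φ m + 1 := by
        rw [hmax']
        refine Nat.ceil_lt_add_one ?_
        by_contra hneg
        push Not at hneg
        have : ⌈Fg g φ m⌉₊ = 0 := Nat.ceil_eq_zero.2 hneg.le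
        rw [this] at hmax'
        omega
      have hmN : N ≤ m := by
        by_contra hcon
        push Not at hcon
        have := hB m hcon
        linarith
      have hF2 : (g' g φ n : ℝ) ≤ 2 * Fg g φ m := by linarith
      have hk2 : (k : ℝ) ≤ 2 * η * Fg g φ m := by nlinarith
      have hmpos : 0 < m := by
        rcases Nat.eq_zero_or_pos m with h0 | h0
        · exfalso
          have : Fg g φ m = 0 := by rw [h0]; simp [Fg]
          linarith
        · exact h0
      have hφm := hφ.pos m hmpos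
      have hm' : (0 : ℝ) < m := by exact_mod_cast hmpos
      have hmono : φ (g m) ≤ φ (g n) := hφ.mono (hgm hmn)
      refine le_trans ?_ (mul_le_mul_of_nonneg_left hmono hε.le)
      have hφg := hφ.nonneg (g m)
      by_cases hcase : k * d ≤ m
      · exact hN m hmN k hcase
      · push Not at hcase
        have hcase' : (m : ℝ) < k * d := by exact_mod_cast hcase
        unfold Fg at hk2
        rw [← mul_div_assoc, le_div_iff₀ hφm] at hk2
        -- `k φ(m) ≤ 2 η m φ(g m)`
        have h5 : φ m ≤ 2 * η * d * φ (g m) := by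
          have : (m : ℝ) * φ m ≤ m * (2 * η * d * φ (g m)) := by
            calc (m : ℝ) * φ m ≤ (k * d) * φ m := mul_le_mul_of_nonneg_right hcase'.le hφm.le
              _ = d * (k * φ m) := by ring
              _ ≤ d * (2 * η * (m * φ (g m))) := mul_le_mul_of_nonneg_left hk2 hd'.le
              _ = _ := by ring
          exact le_of_mul_le_mul_left this hm'
        have h6 := hφ.ratio k m
        -- `m φ(k) ≤ (k + m) φ(m)`
        have h7 : (m : ℝ) * φ k ≤ m * (ε * φ (g m)) := by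
          calc (m : ℝ) * φ k ≤ (k + m) * φ m := h6
            _ = k * φ m + m * φ m := by ring
            _ ≤ 2 * η * (m * φ (g m)) + m * (2 * η * d * φ (g m)) :=
              add_le_add hk2 (mul_le_mul_of_nonneg_left h5 hm'.le)
            _ = m * ((η * (2 * (1 + d))) * φ (g m)) := by ring
            _ = m * (ε * φ (g m)) := by
              rw [hη, div_mul_cancel₀ _ (by positivity)]
        exact le_of_mul_le_mul_left h7 hm'
    obtain ⟨N2, hN2⟩ := eventually_atTop.1 hev2
    refine ⟨N2, fun n hn => ?_⟩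
    obtain ⟨h1, h2⟩ := hN2 n hn
    rw [Real.dist_eq, sub_zero, abs_of_nonneg (div_nonneg (hφ.nonneg _) h2.le), div_lt_iff₀ h2]
    have : ε < ε' := by rw [hε_def]; linarith
    nlinarith

end Main

/-- Every Erdos-Ulam ideal of the form `Z_g(f)`, with `g` in `H` and `f` an unbounded modulus
function, is a simple density ideal. -/
theorem result (h : ℕ → ℝ) (hh : IsEUWeight h) (g : ℕ → ℕ) (hg : InH g) (f : ℝ≥0 → ℝ≥0)
    (hf : IsModulus f) (hfu : ∀ c, ∃ x, c < f x) (heq : EU h = ZF g f) :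
    ∃ k : ℕ → ℕ, InH k ∧ EU h = Z k := by
  set φ : ℕ → ℝ := fun k => (f (k : ℝ≥0) : ℝ) with hφdef
  have hφ : IsMod φ := by
    refine ⟨?_, ?_, ?_, ?_, ?_⟩
    · simp [hφdef, (hf.zero_iff 0).2 rfl]
    · intro k hk
      have h1 : (k : ℝ≥0) ≠ 0 := by exact_mod_cast hk.ne'
      have h2 : f (k : ℝ≥0) ≠ 0 := fun h => h1 ((hf.zero_iff _).1 h)
      exact NNReal.coe_pos.2 (pos_iff_ne_zero.2 h2)
    · intro k l hkl
      exact NNReal.coe_le_coe.2 (hf.mono (by exact_mod_cast hkl))
    · intro k l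
      have := hf.add_le k l
      simp only [hφdef]
      push_cast
      exact_mod_cast this
    · refine tendsto_atTop_atTop.2 fun b => ?_
      obtain ⟨x, hx⟩ := hfu b.toNNReal
      obtain ⟨n, hn⟩ := exists_nat_ge x
      refine ⟨n, fun m hm => ?_⟩
      have h1 : x ≤ (m : ℝ≥0) := hn.trans (by exact_mod_cast hm)
      have h2 := hf.mono h1
      have h3 : b ≤ (b.toNNReal : ℝ) := Real.le_coe_toNNReal b
      have h4 : ((b.toNNReal : ℝ≥0) : ℝ) < f x := NNReal.coe_lt_coe.2 hx
      have h5 : (f x : ℝ) ≤ f m := NNReal.coe_le_coe.2 h2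
      linarith
  have hZP : ZF g f = ZP g φ := rfl
  have hZ : ∀ A : Set ℕ, Tendsto (fun n => (cnt A n : ℝ) / n) atTop (𝓝 0) → A ∈ ZP g φ :=
    fun A hA => density_zero_mem hφ hg.top hh (by rw [heq, hZP]) hA
  obtain ⟨htop, hmain⟩ := main hφ hg.top hg.mono hZ
  refine ⟨g' g φ, ⟨g'_mono g φ, htop, ?_⟩, by rw [heq, hZP, hmain]⟩
  intro hsmall
  have h1 : Set.univ ∈ Z (g' g φ) := by
    rw [Z, Set.mem_setOf_eq]
    simpa [cnt_univ] using hsmall
  rw [← hmain, ← hZP, ← heq, EU, Set.mem_setOf_eq] at h1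
  have h2 : ∀ᶠ n in atTop, mass h Set.univ n / ∑ i ∈ range n, h i = 1 := by
    filter_upwards [hh.sum.eventually (eventually_gt_atTop 0)] with n hn
    rw [mass_univ, div_self hn.ne']
  have h3 := tendsto_nhds_unique h1 ((tendsto_congr' h2).2 tendsto_const_nhds)
  exact zero_ne_one h3

end Pool.Agent.Results.MP_54d8ad_lc.EUSimple
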